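import Pool.Agent.Work.MP_891b03_co.Family2

set_option autoImplicit false

open Filter Topology

namespace Pool.Agent.Results.MP_891b03_co.CostDiverges

open Pool.Agent.Work.MP_891b03_co

/-- The graph `H` on the vertex set of `G` is a rewiring of `G` with bi-Lipschitz constant at most
`L`: it is connected and `d_H (x, y) / L ≤ d_G (x, y) ≤ L * d_H (x, y)` for all `x`, `y`. -/
def IsRewiring {V : Type} (L : ℝ) (G H : SimpleGraph V) : Prop :=
  H.Connected ∧ ∀ x y : V,
    1 / L * (H.dist x y : ℝ) ≤ (G.dist x y : ℝ) ∧ (G.dist x y : ℝ) ≤ L * (H.dist x y : ℝ)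

/-- The edge densities `|E(H)| / |V(G)|` of the rewirings `H` of `G` with bi-Lipschitz constant at
most `L`. -/
def densities {V : Type} (L : ℝ) (G : SimpleGraph V) : Set ℝ :=
  {x : ℝ | ∃ H : SimpleGraph V, IsRewiring L G H ∧ x = (H.edgeSet.ncard : ℝ) / (Nat.card V : ℝ)}

/-- The ball of radius `r` around `v` in `G`, as an induced subgraph rooted at `v`, is isomorphic to
the graph `F` rooted at `o`. -/
def BallIsoTo {V W : Type} (G : SimpleGraph V) (r : ℕ) (v : V) (F : SimpleGraph W) (o : W) : Prop :=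
  ∃ e : G.induce {w : V | G.dist v w ≤ r} ≃g F,
    ∀ a : {w : V | G.dist v w ≤ r}, a.1 = v → e a = o

/-- The probability that the ball of radius `r` around a uniformly random vertex of `G` is
isomorphic, as a rooted graph, to `(F, o)`. -/
noncomputable def ballProb {V W : Type} (G : SimpleGraph V) (r : ℕ) (F : SimpleGraph W) (o : W) : ℝ :=
  ({v : V | BallIsoTo G r v F o}.ncard : ℝ) / (Nat.card V : ℝ)

/-- Benjamini-Schramm convergence of a sequence of finite connected graphs: for every radius the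
distribution of the rooted ball converges. -/
def BSConvergent {V : ℕ → Type} (G : ∀ n, SimpleGraph (V n)) : Prop :=
  ∀ (r k : ℕ) (F : SimpleGraph (Fin k)) (o : Fin k), ∃ p : ℝ,
    Tendsto (fun n => ballProb (G n) r F o) atTop (𝓝 p)

lemma ballIsoTo_iff {V : Type} (G : SimpleGraph V) (r : ℕ) (v : V) {k : ℕ} (F : SimpleGraph (Fin k))
    (o : Fin k) : BallIsoTo G r v F o ↔ BallIso G r v F o := by
  constructor
  · rintro ⟨e, he⟩
    refine ⟨e.toEquiv, ?_, ?_⟩
    · intro a
      constructor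
      · exact he a
      · intro h
        have hv : v ∈ {w : V | G.dist v w ≤ r} := by
          show G.dist v v ≤ r
          rw [SimpleGraph.dist_self]
          exact Nat.zero_le _
        have h1 := he ⟨v, hv⟩ rfl
        have h2 : e.toEquiv a = e.toEquiv ⟨v, hv⟩ := by
          rw [h]
          exact h1.symm
        have h3 := e.toEquiv.injective h2
        rw [h3]
    · intro a b
      exact e.map_rel_iff.symm
  · rintro ⟨e, h1, h2⟩
    exact ⟨⟨e, fun {a b} => (h2 a b).symm⟩, fun a ha => (h1 a).1 ha⟩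

lemma ballProb_eq (Γ : Σ N : ℕ, SimpleGraph (Fin N)) (r k : ℕ) (F : SimpleGraph (Fin k))
    (o : Fin k) : ballProb Γ.2 r F o = statS Γ r k F o := by
  have h : {v : Fin Γ.1 | BallIsoTo Γ.2 r v F o} = {v : Fin Γ.1 | BallIso Γ.2 r v F o} := by
    ext v
    exact ballIsoTo_iff Γ.2 r v F o
  rw [ballProb, statS, h, Nat.card_fin]

/-- A graph which moves the neighbours of another one by less than `3` moves them by at most `2`. -/
lemma dist_le_two_mul {V : Type} (G H : SimpleGraph V) (hG : G.Connected) (hH : H.Connected) (L : ℝ)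
    (hL : L < 3) (h : ∀ x y, (H.dist x y : ℝ) ≤ L * (G.dist x y : ℝ)) :
    ∀ x y, (H.dist x y : ℝ) ≤ 2 * (G.dist x y : ℝ) := by
  have h1 : ∀ x y, G.Adj x y → H.dist x y ≤ 2 := by
    intro x y hxy
    have h2 := h x y
    rw [SimpleGraph.dist_eq_one_iff_adj.2 hxy, Nat.cast_one, mul_one] at h2
    have h3 : (H.dist x y : ℝ) < 3 := lt_of_le_of_lt h2 hL
    have h4 : H.dist x y < 3 := by exact_mod_cast h3
    omega
  have h2 : ∀ x y (p : G.Walk x y), H.dist x y ≤ 2 * p.length := by
    intro x y p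
    induction p with
    | nil => simp
    | cons hadj q ih =>
      rw [SimpleGraph.Walk.length_cons]
      have := hH.dist_triangle (u := _) (v := _) (w := _) |>.trans
        (Nat.add_le_add (h1 _ _ hadj) ih)
      omega
  intro x y
  obtain ⟨p, hp⟩ := hG.exists_walk_length_eq_dist x y
  have := h2 x y p
  rw [hp] at this
  exact_mod_cast this

lemma densities_eq (Γ : Σ N : ℕ, SimpleGraph (Fin N)) (hΓ : Γ.2.Connected) (L : ℝ) (h2 : 2 ≤ L)
    (h3 : L < 3) : densities L Γ.2 = costSet Γ := by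
  have hL : (0 : ℝ) < L := by linarith
  ext x
  constructor
  · rintro ⟨H, ⟨h, h'⟩, rfl⟩
    have a1 := dist_le_two_mul Γ.2 H hΓ h L h3 fun u v => by
      have := (h' u v).1
      rw [one_div, inv_mul_le_iff₀ hL] at this
      exact this
    have a2 := dist_le_two_mul H Γ.2 h hΓ L h3 fun u v => (h' u v).2
    exact ⟨H, h, fun u v => ⟨a1 u v, a2 u v⟩, by rw [Nat.card_fin]⟩
  · rintro ⟨H, h, h', rfl⟩
    refine ⟨H, ⟨h, fun u v => ⟨?_, ?_⟩⟩, by rw [Nat.card_fin]⟩
    · rw [one_div, inv_mul_le_iff₀ hL]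
      exact (h' u v).1.trans (mul_le_mul_of_nonneg_right h2 (Nat.cast_nonneg _))
    · exact (h' u v).2.trans (mul_le_mul_of_nonneg_right h2 (Nat.cast_nonneg _))

lemma densities_finite (Γ : Σ N : ℕ, SimpleGraph (Fin N)) (L : ℝ) : (densities L Γ.2).Finite := by
  have : (Set.range fun H : SimpleGraph (Fin Γ.1) =>
      (H.edgeSet.ncard : ℝ) / (Nat.card (Fin Γ.1) : ℝ)).Finite := Set.finite_range _
  refine this.subset ?_
  rintro x ⟨H, -, rfl⟩
  exact ⟨H, rfl⟩

/-- There are a degree bound and a Benjamini-Schramm convergent sequence of finite connected graphs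
whose numbers of vertices tend to infinity, such that for every bi-Lipschitz constant `L` with
`2 ≤ L < 3` the minimal edge density of a rewiring drops by at least `1 / 1020` from every even to
the next odd member of the sequence, so that it does not converge. -/
theorem result : ∃ (D : ℕ) (N : ℕ → ℕ) (G : ∀ n, SimpleGraph (Fin (N n))),
    Tendsto N atTop atTop ∧ (∀ n, (G n).Connected) ∧
    (∀ n v, ((G n).neighborSet v).ncard ≤ D) ∧ BSConvergent G ∧
    ∀ L : ℝ, 2 ≤ L → L < 3 → ∃ c : ℕ → ℝ, (∀ n, IsLeast (densities L (G n)) (c n)) ∧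
      (∀ n, c (2 * n + 1) + 1 / 1020 ≤ c (2 * n)) ∧ ¬ ∃ l : ℝ, Tendsto c atTop (𝓝 l) := by
  choose A B hAn hBn hAc hBc hAd hBd hstat hcost using exists_pair2
  let s : ℕ → (Σ (_ : ℕ) (k : ℕ), SimpleGraph (Fin k) × Fin k) → ℝ :=
    fun n i => statS (A n) i.1 i.2.1 i.2.2.1 i.2.2.2
  have hs : ∀ n, s n ∈ Set.pi Set.univ
      (fun _ : (Σ (_ : ℕ) (k : ℕ), SimpleGraph (Fin k) × Fin k) => Set.Icc (0 : ℝ) 1) := by
    intro n i _
    constructor
    · simp only [s, statS]; positivity
    · simp only [s, statS]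
      apply div_le_one_of_le₀ _ (Nat.cast_nonneg _)
      have : {v : Fin (A n).1 | BallIso (A n).2 i.1 v i.2.2.1 i.2.2.2}.ncard ≤ (A n).1 := by
        refine (Set.ncard_le_ncard (Set.subset_univ _) (Set.toFinite _)).trans ?_
        rw [Set.ncard_univ, Nat.card_eq_fintype_card, Fintype.card_fin]
      exact_mod_cast this
  obtain ⟨a, _, φ, hφ, hlim⟩ := (isCompact_univ_pi fun _ => isCompact_Icc).tendsto_subseq hs
  set Γ : ℕ → Σ N : ℕ, SimpleGraph (Fin N) :=
    fun n => if Even n then A (φ (n / 2)) else B (φ (n / 2)) with hΓ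
  have hΓe : ∀ n, Even n → Γ n = A (φ (n / 2)) := fun n h => if_pos h
  have hΓo : ∀ n, ¬ Even n → Γ n = B (φ (n / 2)) := fun n h => if_neg h
  have hdiv : Tendsto (fun n : ℕ => n / 2) atTop atTop :=
    tendsto_atTop.2 fun b => eventually_atTop.2 ⟨2 * b, fun n hn => by omega⟩
  have h1 : ∀ n, (Γ n).2.Connected := by
    intro n
    by_cases h : Even n
    · rw [hΓe n h]; exact hAc _
    · rw [hΓo n h]; exact hBc _
  refine ⟨DD, fun n => (Γ n).1, fun n => (Γ n).2, ?_, h1, ?_, ?_, ?_⟩
  · refine tendsto_atTop_mono (fun n => ?_) (hφ.tendsto_atTop.comp hdiv)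
    simp only [Function.comp]
    by_cases h : Even n
    · rw [hΓe n h]; exact hAn _
    · rw [hΓo n h]; exact hBn _
  · intro n
    show ∀ v : Fin (Γ n).1, ((Γ n).2.neighborSet v).ncard ≤ DD
    by_cases h : Even n
    · rw [hΓe n h]; exact hAd _
    · rw [hΓo n h]; exact hBd _
  · intro r k F o
    refine ⟨a ⟨r, k, F, o⟩, ?_⟩
    have hl := (tendsto_pi_nhds.1 hlim ⟨r, k, F, o⟩).comp hdiv
    refine hl.congr' (eventually_atTop.2 ⟨2 * r, fun n hn => ?_⟩)
    have hr : r ≤ φ (n / 2) := le_trans (by omega) (hφ.le_apply (x := n / 2))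
    show (s ∘ φ) (n / 2) ⟨r, k, F, o⟩ = ballProb (Γ n).2 r F o
    rw [ballProb_eq]
    simp only [Function.comp, s, hΓ]
    split_ifs
    · rfl
    · exact hstat (φ (n / 2)) r hr k F o
  · intro L hL2 hL3
    have hset : ∀ n, densities L (Γ n).2 = costSet (Γ n) := fun n =>
      densities_eq (Γ n) (h1 n) L hL2 hL3
    have hne : ∀ n, (densities L (Γ n).2).Nonempty := by
      intro n
      refine ⟨_, (Γ n).2, ⟨h1 n, fun x y => ⟨?_, ?_⟩⟩, rfl⟩
      · rw [one_div, inv_mul_le_iff₀ (by linarith)]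
        exact le_mul_of_one_le_left (Nat.cast_nonneg _) (by linarith)
      · exact le_mul_of_one_le_left (Nat.cast_nonneg _) (by linarith)
    have hle : ∀ k : ℕ, costS (Γ (2 * k + 1)) + 1 / 1020 ≤ costS (Γ (2 * k)) := by
      intro k
      have e1 : Even (2 * k) := even_two_mul k
      have e2 : ¬ Even (2 * k + 1) := by simp
      simp only [hΓ, if_pos e1, if_neg e2]
      have e3 : (2 * k + 1) / 2 = k := by omega
      have e4 : 2 * k / 2 = k := by omega
      rw [e3, e4]
      exact hcost (φ k)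
    refine ⟨fun n => costS (Γ n), ?_, hle, ?_⟩
    · intro n
      have hfin := densities_finite (Γ n) L
      have h : costS (Γ n) = sInf (densities L (Γ n).2) := by rw [hset n]; rfl
      show IsLeast (densities L (Γ n).2) (costS (Γ n))
      rw [h]
      exact ⟨(hne n).csInf_mem hfin, fun y hy => csInf_le hfin.bddBelow hy⟩
    · rintro ⟨c, hc'⟩
      have he : Tendsto (fun k : ℕ => costS (Γ (2 * k))) atTop (𝓝 c) :=
        hc'.comp (tendsto_atTop.2 fun b => eventually_atTop.2 ⟨b, fun n hn => by omega⟩)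
      have ho : Tendsto (fun k : ℕ => costS (Γ (2 * k + 1))) atTop (𝓝 c) :=
        hc'.comp (tendsto_atTop.2 fun b => eventually_atTop.2 ⟨b, fun n hn => by omega⟩)
      have := le_of_tendsto_of_tendsto' (ho.add_const (1 / 1020 : ℝ)) he hle
      norm_num at this

end Pool.Agent.Results.MP_891b03_co.CostDiverges
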